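import Mathlib

/-!
If a bounded operator `T` on `C(ℕ*)` acts on the `A`-supported functions, over a set `F ⊆ ℕ*`,
as composition with a surjection `ψ : F → A*`, then `F` is not c.c.c. over Fin.
-/

open Set Filter Topology

namespace Pool.Agent.Results.MP_f7fc44_an.NeverCcc

/-- `ℕ* = βℕ ∖ ℕ`, where `βℕ` is the Stone space of ultrafilters on `ℕ` and `n ∈ ℕ` is
identified with the principal ultrafilter `pure n`; it has the subspace topology. -/
abbrev NStar : Type := {u : Ultrafilter ℕ // u ∉ Set.range (pure : ℕ → Ultrafilter ℕ)}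

/-- `A* = closure(A) ∖ ℕ`, the closure being taken in `βℕ`. -/
def starSet (A : Set ℕ) : Set NStar :=
  {u | u.1 ∈ closure ((pure : ℕ → Ultrafilter ℕ) '' A)}

/-- `g = f*`: `g` is the restriction to `ℕ*` of a continuous extension to `βℕ` of the
sequence `f`. -/
def IsStar (f : ℕ → ℝ) (g : C(NStar, ℝ)) : Prop :=
  ∃ h : C(Ultrafilter ℕ, ℝ), (∀ n : ℕ, h (pure n) = f n) ∧ ∀ u : NStar, g u = h u.1

/-- `F` is c.c.c. over Fin: in every uncountable family of pairwise disjoint clopen subsets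
of `ℕ*`, all but countably many members are disjoint from `F`. -/
def CccOverFin (F : Set NStar) : Prop :=
  ∀ 𝒰 : Set (Set NStar), (∀ U ∈ 𝒰, IsClopen U) → 𝒰.PairwiseDisjoint id → ¬ 𝒰.Countable →
    {U | U ∈ 𝒰 ∧ ¬ Disjoint U F}.Countable

theorem isOpen_range_pure : IsOpen (Set.range (pure : ℕ → Ultrafilter ℕ)) := by
  have : Set.range (pure : ℕ → Ultrafilter ℕ) = ⋃ n : ℕ, {u : Ultrafilter ℕ | ({n} : Set ℕ) ∈ u} := by
    ext u
    simp only [mem_range, mem_iUnion, mem_ofPred_eq]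
    constructor
    · rintro ⟨n, rfl⟩
      exact ⟨n, by simp⟩
    · rintro ⟨n, hn⟩
      obtain ⟨x, -, hx⟩ := Ultrafilter.eq_pure_of_finite_mem (Set.finite_singleton n) hn
      exact ⟨x, hx.symm⟩
  rw [this]
  exact isOpen_iUnion fun n => ultrafilter_isOpen_basic _

theorem compactSpace_NStar : CompactSpace NStar :=
  isCompact_iff_compactSpace.mp (isOpen_range_pure.isClosed_compl.isCompact)

theorem not_mem_of_finite (u : NStar) {S : Set ℕ} (hS : S.Finite) : S ∉ u.1 := by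
  intro h
  obtain ⟨x, -, hx⟩ := Ultrafilter.eq_pure_of_finite_mem hS h
  exact u.2 ⟨x, hx.symm⟩

theorem exists_mem_of_infinite {S : Set ℕ} (hS : S.Infinite) : ∃ u : NStar, S ∈ u.1 := by
  have hne : (cofinite ⊓ 𝓟 S).NeBot := by
    rw [← Filter.frequently_mem_iff_neBot]
    exact Filter.frequently_cofinite_iff_infinite.mpr hS
  refine ⟨⟨Ultrafilter.of (cofinite ⊓ 𝓟 S), ?_⟩, ?_⟩
  · rintro ⟨n, hn⟩
    have h1 : ({n}ᶜ : Set ℕ) ∈ Ultrafilter.of (cofinite ⊓ 𝓟 S) :=
      Ultrafilter.of_le _ (mem_inf_of_left (by simp))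
    rw [← hn] at h1
    simp at h1
  · exact Ultrafilter.of_le _ (mem_inf_of_right (mem_principal_self S))

theorem mem_starSet {A S : Set ℕ} (hS : S ⊆ A) {u : NStar} (hu : S ∈ u.1) : u ∈ starSet A := by
  show u.1 ∈ closure _
  rw [ultrafilterBasis_is_basis.mem_closure_iff]
  rintro o ⟨t, rfl⟩ ht
  obtain ⟨n, hn1, hn2⟩ := Ultrafilter.nonempty_of_mem (inter_mem ht hu)
  exact ⟨pure n, by simpa using hn1, n, hS hn2, rfl⟩

theorem isClopen_basic (S : Set ℕ) : IsClopen {u : NStar | S ∈ u.1} :=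
  (IsClopen.preimage (f := fun u : NStar => u.1)
    ⟨ultrafilter_isClosed_basic S, ultrafilter_isOpen_basic S⟩ continuous_subtype_val)

/-- An almost disjoint family of infinite subsets of `A` indexed by the reals. -/
theorem exists_ad_family {A : Set ℕ} (hA : A.Infinite) :
    ∃ a : ℝ → Set ℕ, (∀ r, a r ⊆ A) ∧ (∀ r, (a r).Infinite) ∧
      ∀ r s, r ≠ s → (a r ∩ a s).Finite := by
  let e : ℕ × ℤ → ℕ := fun p => (hA.natEmbedding A (Encodable.encode p) : ℕ)
  have he : Function.Injective e := by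
    intro p q h
    exact Encodable.encode_injective ((hA.natEmbedding A).injective (Subtype.ext h))
  refine ⟨fun r => Set.range (fun n : ℕ => e (n, ⌊(n : ℝ) * r⌋)), ?_, ?_, ?_⟩
  · rintro r _ ⟨n, rfl⟩
    exact (hA.natEmbedding A _).2
  · intro r
    apply Set.infinite_range_of_injective
    intro n m h
    exact congrArg Prod.fst (he h)
  · intro r s hrs
    have hpos : 0 < |r - s| := abs_pos.mpr (sub_ne_zero.mpr hrs)
    obtain ⟨N, hN⟩ := exists_nat_gt (1 / |r - s|)
    refine ((Set.finite_Iic N).image (fun n : ℕ => e (n, ⌊(n : ℝ) * r⌋))).subset ?_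
    rintro _ ⟨⟨n, rfl⟩, ⟨m, hm⟩⟩
    have h1 := he hm
    have hmn : m = n := congrArg Prod.fst h1
    subst hmn
    have h2 : ⌊(m : ℝ) * s⌋ = ⌊(m : ℝ) * r⌋ := congrArg Prod.snd h1
    have h3 : |(m : ℝ) * s - m * r| < 1 := Int.abs_sub_lt_one_of_floor_eq_floor h2
    refine ⟨m, ?_, rfl⟩
    have h4 : (m : ℝ) * |r - s| < 1 := by
      rw [← mul_sub, abs_mul, abs_sub_comm, Nat.abs_cast] at h3
      exact h3
    have h5 : (m : ℝ) < 1 / |r - s| := by
      rw [lt_div_iff₀ hpos]; exact h4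
    have h6 : (m : ℝ) < N := h5.trans hN
    exact le_of_lt (by exact_mod_cast h6)

/-- The compatibility relation between coloured members of a family. -/
def Compat {J : Type} {m : ℕ} (B : J → Set ℕ) (p q : J × (ℕ → Fin (m + 1))) : Prop :=
  p.1 ≠ q.1 ∧ {j | j ∈ B p.1 ∧ j ∈ B q.1 ∧ p.2 j = q.2 j}.Finite

theorem Compat.symm {J : Type} {m : ℕ} {B : J → Set ℕ} {p q : J × (ℕ → Fin (m + 1))}
    (h : Compat B p q) : Compat B q p :=
  ⟨h.1.symm, h.2.subset fun _ hj => ⟨hj.2.1, hj.1, hj.2.2.symm⟩⟩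

/-- A new member can be coloured compatibly with countably many old ones. -/
theorem exists_colouring {J : Type} {m : ℕ} (B : J → Set ℕ)
    (hB : ∀ s : Finset J, s.card = m + 2 → {j | ∀ i ∈ s, j ∈ B i}.Finite)
    (S : Set (J × (ℕ → Fin (m + 1)))) (hS : S.Countable) (hP : S.Pairwise (Compat B))
    (α : J) (hα : α ∉ Prod.fst '' S) :
    ∃ c : ℕ → Fin (m + 1), ∀ p ∈ S, Compat B (α, c) p := by
  classical
  obtain ⟨e, he⟩ := Set.countable_iff_exists_injOn.mp hS
  have hfin : ∀ n : ℕ, {q | q ∈ S ∧ e q < n}.Finite := by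
    intro n
    refine Set.Finite.of_finite_image (f := e) ((Set.finite_lt_nat n).subset ?_) ?_
    · rintro _ ⟨q, hq, rfl⟩
      exact hq.2
    · exact he.mono fun q hq => hq.1
  let E : ℕ → Finset (J × (ℕ → Fin (m + 1))) := fun n => (hfin n).toFinset
  have hE : ∀ n q, q ∈ E n ↔ q ∈ S ∧ e q < n := fun n q => by simp [E]
  let rk : J × (ℕ → Fin (m + 1)) → ℕ → ℕ := fun p j =>
    ((E (e p)).filter (fun q => j ∈ B q.1)).card
  have hrk : ∀ p ∈ S, ∀ q ∈ S, ∀ j, j ∈ B q.1 → e q < e p → rk q j < rk p j := by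
    intro p _ q hq j hj hlt
    apply Finset.card_lt_card
    rw [Finset.ssubset_iff_of_subset]
    · refine ⟨q, ?_, ?_⟩
      · rw [Finset.mem_filter, hE]; exact ⟨⟨hq, hlt⟩, hj⟩
      · rw [Finset.mem_filter, hE]; exact fun h => lt_irrefl _ h.1.2
    · intro x hx
      rw [Finset.mem_filter, hE] at hx ⊢
      exact ⟨⟨hx.1.1, hx.1.2.trans hlt⟩, hx.2⟩
  have hcol : ∀ j, ∃ c : Fin (m + 1), ∀ p ∈ S, j ∈ B p.1 → rk p j < m → p.2 j ≠ c := by
    intro j
    by_contra hcon
    push Not at hcon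
    choose P hPS hPB hPr hPc using hcon
    have hinj : Function.Injective (fun c : Fin (m + 1) => (⟨rk (P c) j, hPr c⟩ : Fin m)) := by
      intro c d hcd
      have h1 : rk (P c) j = rk (P d) j := congrArg Fin.val hcd
      have h2 : e (P c) = e (P d) := by
        rcases lt_trichotomy (e (P c)) (e (P d)) with h | h | h
        · exact absurd h1 (hrk _ (hPS d) _ (hPS c) j (hPB c) h).ne
        · exact h
        · exact absurd h1.symm (hrk _ (hPS c) _ (hPS d) j (hPB d) h).ne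
      have h3 : P c = P d := he (hPS c) (hPS d) h2
      rw [← hPc c, ← hPc d, h3]
    have := Fintype.card_le_of_injective _ hinj
    simp at this
  choose c hc using hcol
  refine ⟨c, fun p hp => ⟨fun h => hα ⟨p, hp, h.symm⟩, ?_⟩⟩
  have hfst : Set.InjOn Prod.fst S := by
    intro x hx y hy hxy
    by_contra hne
    exact (hP hx hy hne).1 hxy
  refine Set.Finite.subset (Set.Finite.biUnion
    (((E (e p)).powersetCard m).finite_toSet)
    (t := fun t => {j | ∀ i ∈ insert α (insert p.1 (t.image Prod.fst)), j ∈ B i}) ?_) ?_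
  · intro t ht
    rw [Finset.mem_coe, Finset.mem_powersetCard] at ht
    apply hB
    have htS : ∀ q ∈ t, q ∈ S ∧ e q < e p := fun q hq => (hE _ _).mp (ht.1 hq)
    rw [Finset.card_insert_of_notMem, Finset.card_insert_of_notMem,
      Finset.card_image_of_injOn (hfst.mono fun q hq => (htS q hq).1), ht.2]
    · intro h
      obtain ⟨q, hq, hqp⟩ := Finset.mem_image.mp h
      have : q = p := hfst (htS q hq).1 hp hqp
      exact lt_irrefl _ (this ▸ (htS q hq).2)
    · intro h
      rcases Finset.mem_insert.mp h with h | h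
      · exact hα ⟨p, hp, h.symm⟩
      · obtain ⟨q, hq, hqp⟩ := Finset.mem_image.mp h
        exact hα ⟨q, (htS q hq).1, hqp⟩
  · rintro j ⟨hj1, hj2, hj3⟩
    have hge : m ≤ rk p j := by
      by_contra hlt
      exact hc j p hp hj2 (not_le.mp hlt) hj3.symm
    obtain ⟨t, ht1, ht2⟩ := Finset.exists_subset_card_eq hge
    simp only [Set.mem_iUnion]
    refine ⟨t, ?_, ?_⟩
    · rw [Finset.mem_coe, Finset.mem_powersetCard]
      exact ⟨ht1.trans (Finset.filter_subset _ _), ht2⟩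
    · intro i hi
      rcases Finset.mem_insert.mp hi with rfl | hi
      · exact hj1
      rcases Finset.mem_insert.mp hi with rfl | hi
      · exact hj2
      obtain ⟨q, hq, rfl⟩ := Finset.mem_image.mp hi
      exact (Finset.mem_filter.mp (ht1 hq)).2

/-- An uncountable family in which any `m + 2` members have finite intersection has an
uncountable subfamily with `(m + 1)`-colourings whose colour classes are almost disjoint. -/
theorem exists_uncountable_compat {J : Type} [Uncountable J] {m : ℕ} (B : J → Set ℕ)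
    (hB : ∀ s : Finset J, s.card = m + 2 → {j | ∀ i ∈ s, j ∈ B i}.Finite) :
    ∃ S : Set (J × (ℕ → Fin (m + 1))), ¬ S.Countable ∧ S.Pairwise (Compat B) := by
  obtain ⟨S, hS⟩ := zorn_subset {S : Set (J × (ℕ → Fin (m + 1))) | S.Pairwise (Compat B)} (by
    intro c hc hchain
    refine ⟨⋃₀ c, ?_, fun s hs => Set.subset_sUnion_of_mem hs⟩
    exact (Set.pairwise_sUnion hchain.directedOn).mpr fun a ha => hc ha)
  refine ⟨S, fun hcount => ?_, hS.prop⟩
  have hne : Prod.fst '' S ≠ Set.univ := by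
    intro h
    have := hcount.image Prod.fst
    rw [h] at this
    exact Set.not_countable_univ this
  obtain ⟨α, hα⟩ := (Set.ne_univ_iff_exists_notMem _).mp hne
  obtain ⟨c, hc⟩ := exists_colouring B hB S hcount hS.prop α hα
  have hins : (insert (α, c) S).Pairwise (Compat B) :=
    Set.Pairwise.insert hS.prop fun p hp _ => ⟨hc p hp, (hc p hp).symm⟩
  have := hS.eq_of_subset hins (Set.subset_insert _ _)
  exact hα ⟨(α, c), by rw [this]; exact Set.mem_insert _ _, rfl⟩

theorem result (T : C(NStar, ℝ) →L[ℝ] C(NStar, ℝ)) (A : Set ℕ) (hA : A.Infinite)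
    (F : Set NStar) (ψ : F → starSet A) (hψ : Function.Surjective ψ)
    (hT : ∀ (f : ℕ → ℝ) (g : C(NStar, ℝ)), (∃ C : ℝ, ∀ n : ℕ, |f n| ≤ C) → IsStar f g →
      (∀ n : ℕ, n ∉ A → f n = 0) → ∀ y : F, T g y = g (ψ y)) :
    ¬ CccOverFin F := by
  classical
  have := compactSpace_NStar
  intro hccc
  obtain ⟨a, haA, hainf, had⟩ := exists_ad_family hA
  -- the indicator functions of the sets `(a r)*`
  let h : ℝ → C(Ultrafilter ℕ, ℝ) := fun r =>
    ⟨{u : Ultrafilter ℕ | a r ∈ u}.indicator (fun _ => 1),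
      IsClopen.continuous_indicator
        ⟨ultrafilter_isClosed_basic _, ultrafilter_isOpen_basic _⟩ continuous_const⟩
  let g : ℝ → C(NStar, ℝ) := fun r => (h r).comp ⟨Subtype.val, continuous_subtype_val⟩
  have hg : ∀ r (u : NStar), g r u = if a r ∈ u.1 then 1 else 0 := by
    intro r u
    simp [g, h, Set.indicator_apply]
  let f : ℝ → ℕ → ℝ := fun r n => if n ∈ a r then 1 else 0
  have hbdd : ∀ r, ∃ C : ℝ, ∀ n : ℕ, |f r n| ≤ C := by
    intro r
    refine ⟨1, fun n => ?_⟩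
    by_cases hn : n ∈ a r <;> simp [f, hn]
  have hfg : ∀ r, IsStar (f r) (g r) := by
    intro r
    refine ⟨h r, fun n => ?_, fun u => rfl⟩
    simp [h, f, Set.indicator_apply]
  have hsupp : ∀ r n, n ∉ A → f r n = 0 := by
    intro r n hn
    have : n ∉ a r := fun h => hn (haA r h)
    simp [f, this]
  -- points of `F` over `(a r)*`
  have hy : ∀ r, ∃ y : F, T (g r) y = 1 := by
    intro r
    obtain ⟨u, hu⟩ := exists_mem_of_infinite (hainf r)
    obtain ⟨y, hy⟩ := hψ ⟨u, mem_starSet (haA r) hu⟩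
    refine ⟨y, ?_⟩
    rw [hT (f r) (g r) (hbdd r) (hfg r) (hsupp r) y, hy, hg]
    simp [hu]
  choose y hy using hy
  have hB : ∀ r, ∃ B : Set ℕ, B ∈ (y r).1.1 ∧ ∀ u : NStar, B ∈ u.1 → 1 / 2 < T (g r) u := by
    intro r
    have hopen : IsOpen {u : NStar | 1 / 2 < T (g r) u} :=
      isOpen_lt continuous_const (T (g r)).continuous
    obtain ⟨V, hV, hVeq⟩ := isOpen_induced_iff.mp hopen
    have hyV : (y r).1.1 ∈ V := by
      have : (y r).1 ∈ {u : NStar | 1 / 2 < T (g r) u} := by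
        show 1 / 2 < T (g r) (y r).1
        rw [hy r]; norm_num
      rw [← hVeq] at this
      exact this
    obtain ⟨_, ⟨B, rfl⟩, hB1, hB2⟩ := ultrafilterBasis_is_basis.exists_subset_of_mem_open hyV hV
    refine ⟨B, hB1, fun u hu => ?_⟩
    have : u ∈ {u : NStar | 1 / 2 < T (g r) u} := by
      rw [← hVeq]
      exact hB2 hu
    exact this
  choose B hBy hBT using hB
  obtain ⟨m, hm⟩ := exists_nat_gt (2 * ‖T‖)
  have hfin : ∀ s : Finset ℝ, s.card = m + 2 → {j | ∀ i ∈ s, j ∈ B i}.Finite := by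
    intro s hs
    by_contra hinf
    obtain ⟨u, hu⟩ := exists_mem_of_infinite hinf
    have h1 : ‖∑ i ∈ s, g i‖ ≤ 1 := by
      rw [ContinuousMap.norm_le _ zero_le_one]
      intro v
      rw [ContinuousMap.sum_apply]
      by_cases hv : ∃ i ∈ s, a i ∈ v.1
      · obtain ⟨i, hi, hiv⟩ := hv
        rw [Finset.sum_eq_single i]
        · rw [hg]; simp [hiv]
        · intro k _ hki
          have : a k ∉ v.1 := fun hk =>
            not_mem_of_finite v (had k i hki) (inter_mem hk hiv)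
          rw [hg]; simp [this]
        · exact fun h => absurd hi h
      · push Not at hv
        rw [Finset.sum_eq_zero]
        · simp
        · intro i hi
          rw [hg]; simp [hv i hi]
    have h2 : ‖T (∑ i ∈ s, g i)‖ ≤ ‖T‖ := by
      calc ‖T (∑ i ∈ s, g i)‖ ≤ ‖T‖ * ‖∑ i ∈ s, g i‖ := T.le_opNorm _
        _ ≤ ‖T‖ * 1 := by gcongr
        _ = ‖T‖ := mul_one _
    have h3 : T (∑ i ∈ s, g i) u ≤ ‖T‖ :=
      ((le_abs_self _).trans ((T (∑ i ∈ s, g i)).norm_coe_le_norm u)).trans h2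
    have h4 : ∑ i ∈ s, (1 / 2 : ℝ) ≤ T (∑ i ∈ s, g i) u := by
      rw [map_sum, ContinuousMap.sum_apply]
      refine Finset.sum_le_sum fun i hi => (hBT i u ?_).le
      exact mem_of_superset hu fun j hj => hj i hi
    rw [Finset.sum_const, hs, nsmul_eq_mul] at h4
    push_cast at h4
    linarith
  obtain ⟨S, hSu, hSP⟩ := exists_uncountable_compat B hfin
  have hcol : ∀ p : ℝ × (ℕ → Fin (m + 1)), ∃ i : Fin (m + 1),
      {j | j ∈ B p.1 ∧ p.2 j = i} ∈ (y p.1).1.1 := by
    intro p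
    have : (⋃ i ∈ (Set.univ : Set (Fin (m + 1))), {j | j ∈ B p.1 ∧ p.2 j = i}) ∈ (y p.1).1.1 := by
      refine mem_of_superset (hBy p.1) fun j hj => ?_
      simp only [Set.mem_iUnion]
      exact ⟨p.2 j, trivial, hj, rfl⟩
    obtain ⟨i, -, hi⟩ := (Ultrafilter.finite_biUnion_mem_iff Set.finite_univ).mp this
    exact ⟨i, hi⟩
  choose col hcol using hcol
  have hex : ∃ i, ¬ {p | p ∈ S ∧ col p = i}.Countable := by
    by_contra hcon
    push Not at hcon
    refine hSu ((Set.countable_iUnion hcon).mono fun p hp => ?_)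
    exact Set.mem_iUnion.mpr ⟨col p, hp, rfl⟩
  obtain ⟨i, hi⟩ := hex
  let U : ℝ × (ℕ → Fin (m + 1)) → Set NStar := fun p =>
    {u : NStar | {j | j ∈ B p.1 ∧ p.2 j = i} ∈ u.1}
  have hyU : ∀ p, col p = i → (y p.1).1 ∈ U p := by
    intro p hp
    have := hcol p
    rw [hp] at this
    exact this
  have hdisj : ∀ p ∈ S, ∀ q ∈ S, p ≠ q → Disjoint (U p) (U q) := by
    intro p hp q hq hpq
    rw [Set.disjoint_left]
    intro u hup huq
    refine not_mem_of_finite u (hSP hp hq hpq).2 (mem_of_superset (inter_mem hup huq) ?_)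
    rintro j ⟨⟨h1, h2⟩, h3, h4⟩
    exact ⟨h1, h3, h2.trans h4.symm⟩
  have hinj : Set.InjOn U {p | p ∈ S ∧ col p = i} := by
    intro p hp q hq hpq
    by_contra hne
    have h1 := hyU p hp.2
    exact Set.disjoint_left.mp (hdisj p hp.1 q hq.1 hne) h1 (hpq ▸ h1)
  have hunc : ¬ (U '' {p | p ∈ S ∧ col p = i}).Countable := fun hc =>
    hi (Set.countable_of_injective_of_countable_image hinj hc)
  refine hunc ((hccc _ ?_ ?_ hunc).mono ?_)
  · rintro _ ⟨p, -, rfl⟩
    exact isClopen_basic _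
  · rintro _ ⟨p, hp, rfl⟩ _ ⟨q, hq, rfl⟩ hne
    exact hdisj p hp.1 q hq.1 fun h => hne (by rw [h])
  · rintro _ ⟨p, hp, rfl⟩
    exact ⟨⟨p, hp, rfl⟩, Set.not_disjoint_iff.mpr ⟨(y p.1).1, hyU p hp.2, (y p.1).2⟩⟩

end Pool.Agent.Results.MP_f7fc44_an.NeverCcc
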